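import Pool.Agent.Helper61.RW.FinA

/-!
# MP_e8ba80_lc, Q2: a computable instance of RWKL without solutions of minimal degree
-/

set_option autoImplicit false

namespace Pool.Agent.Results.MP_e8ba80_lc.RwklNoMinimalDegree

/-- There is an infinite computable tree `T` of binary strings such that every infinite set `h` that
is homogeneous (with some colour `c`) for strings of `T` of every length computes a set `d` which is
not computable and does not compute `h`. -/
theorem result :
    ∃ T : List Bool → Bool, Computable T ∧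
      (∀ σ τ : List Bool, σ <+: τ → T τ = true → T σ = true) ∧
      (∀ n : ℕ, ∃ σ : List Bool, T σ = true ∧ σ.length = n) ∧
      ∀ h : ℕ → Bool, {n | h n = true}.Infinite →
        (∃ c : Bool, ∀ n : ℕ, ∃ σ : List Bool, T σ = true ∧ σ.length = n ∧
          ∀ i < n, h i = true → σ[i]? = some c) →
        ∃ d : ℕ → Bool,
          TuringReducible (fun n => Part.some (d n).toNat) (fun n => Part.some (h n).toNat) ∧
          ¬ Computable d ∧
          ¬ TuringReducible (fun n => Part.some (h n).toNat) (fun n => Part.some (d n).toNat) := by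
  obtain ⟨v, hS⟩ := Pool.Agent.Helper61.RW.construction
  refine ⟨Pool.Agent.Helper61.RW.inT Pool.Agent.Helper61.RW.SS,
    Pool.Agent.Helper61.RW.comp_inT hS.comp,
    fun σ τ h1 h2 => Pool.Agent.Helper61.RW.inT_prefix hS h1 h2,
    fun n => ⟨_, Pool.Agent.Helper61.RW.inT_sg hS (le_refl n), by simp⟩, ?_⟩
  intro h hinf hsol
  obtain ⟨c, hc⟩ := hsol
  obtain ⟨p, hp1, hp2, hp3⟩ := Pool.Agent.Helper61.RW.next_elt hinf
  obtain ⟨Z, hZ, hpZ⟩ := Pool.Agent.Helper61.RW.main_lemma hS hp2 (col := c) (by
    intro N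
    obtain ⟨σ, h1, h2, h3⟩ := hc N
    refine ⟨σ, h1, h2, fun n hn => ?_⟩
    rw [List.getD_eq_getElem?_getD, h3 (p n) hn (hp3 n)]
    rfl)
  by_contra hcon
  refine Pool.Agent.Helper61.RW.not_minimal hZ (hp1.trans hpZ) fun d hd => ?_
  by_contra hd'
  exact hcon ⟨d, hd, fun h1 => hd' (Or.inl h1), fun h1 => hd' (Or.inr h1)⟩

end Pool.Agent.Results.MP_e8ba80_lc.RwklNoMinimalDegree
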